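import Pool.Agent.H.MP_b30f08_an.B

open Pool.Agent.H.MP_b30f08_an

namespace Pool.Agent.Results.MP_b30f08_an.No

theorem result (𝕜 : Type) [RCLike 𝕜] (p : ENNReal) (hp : 1 ≤ p) (v : ℕ → ℕ → ℝ)
    (h1 : ∀ m j, 0 < v m j) (h2 : ∀ m j, v (m + 1) j ≤ v m j)
    (h3 : ∀ m, ∃ n, m ≤ n ∧ ∃ C, 0 < C ∧ ∀ j, v n j ≤ C * v m (j + 1))
    (B : kk 𝕜 p v → kk 𝕜 p v) (hB : ∀ x j, (B x).1 j = x.1 (j + 1))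
    (hN : Nuc 𝕜 (kk 𝕜 p v) (top 𝕜 p v)) (hE : Erg (top 𝕜 p v) B) : SeqHC (top 𝕜 p v) B :=
  haveI : Fact (1 ≤ p) := ⟨hp⟩
  Wt.main ⟨h1, fun j => antitone_nat_of_succ_le fun m => h2 m j⟩ h3 hB hN hE

end Pool.Agent.Results.MP_b30f08_an.No
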